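import Pool.Agent.N26.HB.Mld

set_option autoImplicit false

/-!
# From points to the function field (S_rel; helper26, for project HB)
-/

namespace Pool.Agent.N26.HB

open Filter MvPolynomial Pool.Agent.Y902.GN Pool.Agent.N741.HB

noncomputable section

/-! ### The polynomial of a relation -/

/-- the coefficients in `t` -/
def cf {d M I : ℕ} (c : (Fin d → Fin M) → Fin I → ℤ) (l : Fin I) : MvPolynomial (Fin d) ℤ :=
  ∑ e, C (c e l) * ∏ b, (X b : MvPolynomial (Fin d) ℤ) ^ (e b : ℕ)

theorem cf_ne {d M I : ℕ} {c : (Fin d → Fin M) → Fin I → ℤ} (hc : c ≠ 0) : ∃ l, cf c l ≠ 0 := by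
  classical
  by_contra hcon
  push Not at hcon
  apply hc
  funext e0 l
  have h := hcon l
  unfold cf at h
  have h1 : ∀ e : Fin d → Fin M, C (c e l) * ∏ b, (X b : MvPolynomial (Fin d) ℤ) ^ (e b : ℕ) =
      monomial (Finsupp.equivFunOnFinite.symm fun b => (e b : ℕ)) (c e l) := by
    intro e
    rw [monomial_eq, Finsupp.prod_fintype _ _ (fun i => pow_zero _)]
    rfl
  have h2 := congrArg (coeff (Finsupp.equivFunOnFinite.symm fun b => (e0 b : ℕ))) h
  rw [coeff_sum, MvPolynomial.coeff_zero] at h2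
  rw [Finset.sum_eq_single e0] at h2
  · rw [h1, coeff_monomial, if_pos rfl] at h2
    rw [h2]; rfl
  · intro e _ hne
    rw [h1, coeff_monomial, if_neg]
    intro hcon
    apply hne
    funext b
    have h3 := DFunLike.congr_fun hcon b
    simp only [Finsupp.equivFunOnFinite_symm_apply_apply] at h3
    exact Fin.ext h3
  · intro h3
    exact absurd (Finset.mem_univ _) h3

theorem nm_cf {d M I : ℕ} {c : (Fin d → Fin M) → Fin I → ℤ} {B : ℕ}
    (hB : ∀ e l, |c e l| ≤ (B : ℤ)) (l : Fin I) : nm (cf c l) ≤ M ^ d * B := by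
  unfold cf
  refine (nm_sum _ _).trans ?_
  calc ∑ e : Fin d → Fin M, nm (C (c e l) * ∏ b, (X b : MvPolynomial (Fin d) ℤ) ^ (e b : ℕ))
      ≤ ∑ _e : Fin d → Fin M, B := by
        apply Finset.sum_le_sum
        intro e _
        refine (nm_mul _ _).trans ?_
        have h1 : nm (∏ b, (X b : MvPolynomial (Fin d) ℤ) ^ (e b : ℕ)) ≤ 1 := by
          refine (nm_prod _ _).trans ?_
          refine (Finset.prod_le_prod' (g := fun _ => 1) (fun b _ => ?_)).trans (by simp)
          refine (nm_pow _ _).trans ?_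
          exact (Nat.pow_le_pow_left (nm_X b) _).trans (by rw [one_pow])
        have h2 : nm (C (c e l) : MvPolynomial (Fin d) ℤ) ≤ B := by
          refine (nm_C _).trans ?_
          have := hB e l
          rw [Int.abs_eq_natAbs] at this
          exact_mod_cast this
        calc _ ≤ B * 1 := Nat.mul_le_mul h2 h1
          _ = B := mul_one _
    _ = M ^ d * B := by
        rw [Finset.sum_const, Finset.card_univ, Fintype.card_fun, Fintype.card_fin,
          Fintype.card_fin, smul_eq_mul]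

theorem td_cf {d M I : ℕ} (c : (Fin d → Fin M) → Fin I → ℤ) (l : Fin I) :
    (cf c l).totalDegree ≤ d * M := by
  unfold cf
  apply totalDegree_finsetSum_le
  intro e _
  refine (totalDegree_mul _ _).trans ?_
  rw [totalDegree_C, zero_add]
  refine (totalDegree_finsetProd _ _).trans ?_
  calc ∑ b, ((X b : MvPolynomial (Fin d) ℤ) ^ (e b : ℕ)).totalDegree ≤ ∑ _b : Fin d, M := by
        apply Finset.sum_le_sum
        intro b _
        refine (totalDegree_pow _ _).trans ?_
        rw [totalDegree_X, mul_one]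
        exact (e b).2.le
    _ = d * M := by simp

/-- the polynomial -/
def PP {d M I : ℕ} (c : (Fin d → Fin M) → Fin I → ℤ) : Polynomial (MvPolynomial (Fin d) ℤ) :=
  ∑ l : Fin I, Polynomial.C (cf c l) * Polynomial.X ^ (l : ℕ)

theorem PP_coeff {d M I : ℕ} (c : (Fin d → Fin M) → Fin I → ℤ) (i : ℕ) :
    (PP c).coeff i = if h : i < I then cf c ⟨i, h⟩ else 0 := by
  unfold PP
  rw [Polynomial.finsetSum_coeff]
  simp only [Polynomial.coeff_C_mul_X_pow]
  split_ifs with h
  · rw [Finset.sum_eq_single ⟨i, h⟩]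
    · simp
    · intro l _ hl
      rw [if_neg]
      intro hcon
      exact hl (Fin.ext hcon.symm)
    · intro h3
      exact absurd (Finset.mem_univ _) h3
  · apply Finset.sum_eq_zero
    intro l _
    rw [if_neg]
    intro hcon
    exact h (hcon ▸ l.2)

theorem PP_ne {d M I : ℕ} {c : (Fin d → Fin M) → Fin I → ℤ} (hc : c ≠ 0) : PP c ≠ 0 := by
  obtain ⟨l, hl⟩ := cf_ne hc
  intro h
  apply hl
  have := PP_coeff c (l : ℕ)
  rw [h, Polynomial.coeff_zero, dif_pos l.2] at this
  exact this.symm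

theorem PP_deg {d M I : ℕ} (c : (Fin d → Fin M) → Fin I → ℤ) : (PP c).natDegree ≤ I := by
  rw [Polynomial.natDegree_le_iff_coeff_eq_zero]
  intro i hi
  rw [PP_coeff, dif_neg (by omega)]

theorem PP_eval {d M I : ℕ} (c : (Fin d → Fin M) → Fin I → ℤ) (s : Fin d → ℤ) (z : ℤ) :
    ((PP c).map (eval s)).eval z =
      ∑ e, ∑ l, c e l * ((∏ b, s b ^ (e b : ℕ)) * z ^ (l : ℕ)) := by
  unfold PP cf
  rw [Polynomial.map_sum, Polynomial.eval_finsetSum, Finset.sum_comm]
  apply Finset.sum_congr rfl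
  intro l _
  rw [Polynomial.map_mul, Polynomial.map_C, Polynomial.map_pow, Polynomial.map_X,
    Polynomial.eval_mul, Polynomial.eval_C, Polynomial.eval_pow, Polynomial.eval_X, map_sum,
    Finset.sum_mul]
  apply Finset.sum_congr rfl
  intro e _
  rw [map_mul, eval_C, map_prod]
  simp only [map_pow, eval_X]
  ring

/-! ### The resultant -/

/-- the second polynomial -/
def QQ {d : ℕ} (A F : MvPolynomial (Option (Fin d)) ℤ) (r : ℕ) :
    Polynomial (MvPolynomial (Option (Fin d)) ℤ) :=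
  Polynomial.C A * Polynomial.X ^ r - Polynomial.C F

theorem QQ_coeff {d : ℕ} (A F : MvPolynomial (Option (Fin d)) ℤ) (r i : ℕ) :
    (QQ A F r).coeff i = (if i = r then A else 0) - (if i = 0 then F else 0) := by
  unfold QQ
  rw [Polynomial.coeff_sub, Polynomial.coeff_C_mul_X_pow, Polynomial.coeff_C]

theorem QQ_deg_le {d : ℕ} (A F : MvPolynomial (Option (Fin d)) ℤ) (r : ℕ) :
    (QQ A F r).natDegree ≤ r := by
  rw [Polynomial.natDegree_le_iff_coeff_eq_zero]
  intro i hi
  rw [QQ_coeff, if_neg (by omega), if_neg (by omega), sub_zero]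

theorem QQ_deg_ne {d : ℕ} {A F : MvPolynomial (Option (Fin d)) ℤ} {r : ℕ} (hA : A ≠ 0)
    (hr : 1 ≤ r) : (QQ A F r).natDegree ≠ 0 := by
  have h1 : (QQ A F r).coeff r ≠ 0 := by
    rw [QQ_coeff, if_pos rfl, if_neg (by omega), sub_zero]
    exact hA
  have := Polynomial.le_natDegree_of_ne_zero h1
  omega

/-- the resultant -/
def RR {d : ℕ} (P : Polynomial (MvPolynomial (Fin d) ℤ)) (A F : MvPolynomial (Option (Fin d)) ℤ)
    (r : ℕ) : MvPolynomial (Option (Fin d)) ℤ :=
  Polynomial.resultant (P.map (rename some).toRingHom)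
    (Polynomial.C A * Polynomial.X ^ r - Polynomial.C F)

theorem RR_eval {d : ℕ} {P : Polynomial (MvPolynomial (Fin d) ℤ)}
    {A F : MvPolynomial (Option (Fin d)) ℤ} {r : ℕ} (hA : A ≠ 0) (hr : 1 ≤ r)
    {s : Option (Fin d) → ℤ} {z : ℤ} (hP : (P.map (eval (fun b => s (some b)))).eval z = 0)
    (hQ : eval s A * z ^ r = eval s F) : eval s (RR P A F r) = 0 := by
  obtain ⟨p, q, -, -, h⟩ := Polynomial.exists_mul_add_mul_eq_C_resultant
    (P.map (rename some).toRingHom) (QQ A F r) le_rfl le_rfl (Or.inr (QQ_deg_ne hA hr))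
  have h1 : RR P A F r = (P.map (rename some).toRingHom).resultant (QQ A F r) := rfl
  rw [← h1] at h
  have h2 := congrArg (fun f => (f.map (eval s)).eval z) h
  simp only [Polynomial.map_add, Polynomial.map_mul, Polynomial.eval_add, Polynomial.eval_mul,
    Polynomial.map_C, Polynomial.eval_C] at h2
  rw [← h2]
  have h3 : ((P.map (rename some).toRingHom).map (eval s)).eval z = 0 := by
    rw [Polynomial.map_map]
    have h4 : (eval s).comp ((rename some : MvPolynomial (Fin d) ℤ →ₐ[ℤ] _).toRingHom) =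
        eval (fun b => s (some b)) := by
      apply RingHom.ext
      intro x
      show eval s (rename some x) = _
      rw [eval_rename]
      rfl
    rw [h4]
    exact hP
  have h4 : ((QQ A F r).map (eval s)).eval z = 0 := by
    unfold QQ
    simp only [Polynomial.map_sub, Polynomial.map_mul, Polynomial.map_C, Polynomial.map_pow,
      Polynomial.map_X, Polynomial.eval_sub, Polynomial.eval_mul, Polynomial.eval_C,
      Polynomial.eval_pow, Polynomial.eval_X]
    rw [hQ, sub_self]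
  rw [h3, h4]
  ring

theorem RR_bd {d : ℕ} {P : Polynomial (MvPolynomial (Fin d) ℤ)}
    {A F : MvPolynomial (Option (Fin d)) ℤ} {r I v : ℕ} (hPd : P.natDegree ≤ I)
    (hP : ∀ i, (P.coeff i).totalDegree ≤ v ∧ nm (P.coeff i) ≤ 2 ^ v)
    (hA : A.totalDegree ≤ v ∧ nm A ≤ 2 ^ v) (hF : F.totalDegree ≤ v ∧ nm F ≤ 2 ^ v) :
    (RR P A F r).totalDegree ≤ (I + r) * ((I + r) + (v + 1)) ∧
      nm (RR P A F r) ≤ 2 ^ ((I + r) * ((I + r) + (v + 1))) := by
  have hm : (P.map (rename (some : Fin d → Option (Fin d))).toRingHom).natDegree ≤ I :=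
    (Polynomial.natDegree_map_le).trans hPd
  have hn := QQ_deg_le A F r
  have hmn : (P.map (rename (some : Fin d → Option (Fin d))).toRingHom).natDegree +
      (QQ A F r).natDegree ≤ I + r := Nat.add_le_add hm hn
  have cP : ∀ i, ((P.map (rename (some : Fin d → Option (Fin d))).toRingHom).coeff i) =
      rename some (P.coeff i) := by
    intro i
    rw [Polynomial.coeff_map]
    rfl
  constructor
  · have h1 := td_res (P.map (rename (some : Fin d → Option (Fin d))).toRingHom) (QQ A F r)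
      (P.map (rename (some : Fin d → Option (Fin d))).toRingHom).natDegree (QQ A F r).natDegree
      (D := v) (fun i => by
        rw [cP]
        exact (totalDegree_rename_le _ _).trans (hP i).1) (fun i => by
        rw [QQ_coeff]
        refine (totalDegree_sub _ _).trans (max_le ?_ ?_)
        · split_ifs
          · exact hA.1
          · simp
        · split_ifs
          · exact hF.1
          · simp)
    refine h1.trans (Nat.mul_le_mul hmn ?_)
    omega
  · have h1 := nm_res (P.map (rename (some : Fin d → Option (Fin d))).toRingHom) (QQ A F r)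
      (P.map (rename (some : Fin d → Option (Fin d))).toRingHom).natDegree (QQ A F r).natDegree
      (B := 2 ^ (v + 1)) (fun i => by
        rw [cP]
        refine ((nm_rename _ _).trans (hP i).2).trans ?_
        exact Nat.pow_le_pow_right (by norm_num) (by omega)) (fun i => by
        rw [QQ_coeff]
        refine (nm_sub _ _).trans ?_
        have e1 : nm (if i = r then A else 0) ≤ 2 ^ v := by
          split_ifs
          · exact hA.2
          · rw [nm_zero]; positivity
        have e2 : nm (if i = 0 then F else 0) ≤ 2 ^ v := by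
          split_ifs
          · exact hF.2
          · rw [nm_zero]; positivity
        rw [pow_succ]
        omega)
    refine h1.trans ?_
    obtain ⟨K, hK⟩ : ∃ K, K = (P.map (rename (some : Fin d → Option (Fin d))).toRingHom).natDegree +
      (QQ A F r).natDegree := ⟨_, rfl⟩
    rw [← hK] at hmn ⊢
    calc K.factorial * (2 ^ (v + 1)) ^ K ≤ (2 ^ K) ^ K * (2 ^ (v + 1)) ^ K := by
          apply Nat.mul_le_mul_right
          exact (Nat.factorial_le_pow K).trans (Nat.pow_le_pow_left Nat.lt_two_pow_self.le K)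
      _ = 2 ^ (K * (K + (v + 1))) := by
          rw [← pow_mul, ← pow_mul, ← pow_add]
          congr 1
          ring
      _ ≤ 2 ^ ((I + r) * ((I + r) + (v + 1))) := by
          apply Nat.pow_le_pow_right (by norm_num)
          exact Nat.mul_le_mul hmn (by omega)

/-! ### The theorem -/

theorem rel (h1 : S_det) (h2 : S_starL) (h3 : S_root) (h4 : S_irr) (h5 : S_van) : S_rel := by
  intro Y N Om hY hbig hb G A F hA hF hAne r w z hr hrf hwf hz
  classical
  -- the large set where everything is nonzero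
  obtain ⟨Z, hZ⟩ : ∃ Z : ℕ → Finset (Fin N → ℤ), ∀ ν t, t ∈ Z ν ↔ t ∈ Om ν ∧
      eval (G.sp ν t) (pderiv none (G.h ν)) ≠ 0 ∧ eval (G.sp ν t) (A ν) ≠ 0 :=
    ⟨fun ν => (Om ν).filter fun t => eval (G.sp ν t) (pderiv none (G.h ν)) ≠ 0 ∧
      eval (G.sp ν t) (A ν) ≠ 0, fun ν t => Finset.mem_filter⟩
  have hZbig : Big Y Z := by
    rcases hbig.or hY (B := Z) (C := fun ν => ((Om ν).filter fun t =>
        eval (G.sp ν t) (pderiv none (G.h ν)) = 0) ∪
        ((Om ν).filter fun t => eval (G.sp ν t) (A ν) = 0))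
      (Filter.Eventually.of_forall fun ν t ht => by
        rw [Finset.mem_union, Finset.mem_union, Finset.mem_filter, Finset.mem_filter, hZ]
        tauto) with h | h
    · exact h
    · rcases h.or hY (Filter.Eventually.of_forall fun ν => subset_rfl) with h | h
      · exact absurd h G.sep
      · exact absurd h hAne
  obtain ⟨m, hm⟩ := hZbig
  obtain ⟨k, hk⟩ : ∃ k, k = 4 * (2 * G.d + 7) * m + 1 := ⟨_, rfl⟩
  have hk1 : 1 ≤ k := by omega
  obtain ⟨I, D, X₀, hI, hdet⟩ := h1 G.d k
  obtain ⟨xx, hX⟩ := rootX Y k hk1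
  have hX1 : ∀ ν, Y ν + 2 ≤ xx ν ^ k := fun ν => (hX ν).2.1
  -- norms
  obtain ⟨vA, hvA, hvA'⟩ := mild_nm hY hA
  obtain ⟨vF, hvF, hvF'⟩ := mild_nm hY hF
  obtain ⟨vh, hvh, hvh'⟩ := mild_nm hY (PB_mild hY G.hPB)
  have hvh2 : ∀ᶠ ν in (Uf : Filter ℕ), (pderiv none (G.h ν)).totalDegree ≤ vh ν + vh ν ∧
      nm (pderiv none (G.h ν)) ≤ 2 ^ (vh ν + vh ν) := by
    filter_upwards [hvh'] with ν a
    refine ⟨(td_pderiv _ _).trans (a.1.trans (by omega)), (nm_pderiv none a.1).trans ?_⟩
    rw [pow_add]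
    exact Nat.mul_le_mul Nat.lt_two_pow_self.le a.2
  obtain ⟨C, hC⟩ := sp_bd hb G
  obtain ⟨uA, huA, huA'⟩ := val_bd hY hvA hvA' C
  obtain ⟨uh, huh, huh'⟩ := val_bd hY (hvh.add hY hvh) hvh2 C
  have hWf : Few Y (fun ν => w ν + 1) := hwf.add hY (Few.const hY 1)
  have hsize1 : ∀ᶠ ν in (Uf : Filter ℕ), I * (I * (w ν + 1)) ^ G.d < xx ν :=
    few_lt_X hX1 ((Few.const hY I).mul (((Few.const hY I).mul hWf).pow G.d))
  have hsize2 : ∀ᶠ ν in (Uf : Filter ℕ), uh ν + uA ν + (r ν + w ν) < xx ν :=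
    few_lt_X hX1 ((huh.add hY huA).add hY (hrf.add hY hwf))
  -- the relation
  have key : ∀ᶠ ν in (Uf : Filter ℕ), ∃ TP : Finset (Fin N → ℤ) ×
      Polynomial (MvPolynomial (Fin G.d) ℤ), TP.1 ⊆ Z ν ∧
      (Z ν).card ≤ xx ν ^ (2 * G.d + 7) * TP.1.card ∧ TP.2 ≠ 0 ∧ TP.2.natDegree ≤ I ∧
      (∀ i, (TP.2.coeff i).totalDegree ≤ G.d * (I * (w ν + 1)) ∧
        nm (TP.2.coeff i) ≤ (I * (w ν + 1)) ^ G.d * xx ν ^ (D * (w ν + 1))) ∧
      ∀ t ∈ TP.1, (TP.2.map (eval (fun b => G.sp ν t (some b)))).eval (z ν t) = 0 := by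
    filter_upwards [X_large hY hX1 X₀, X_large hY hX1 2, hsize1, hsize2, hz, hb, hC, huA', huh',
      G.ev_h, hr 1] with ν g1 g2 g3 g4 g5 g6 g7 g8 g9 g10 g11
    obtain ⟨T', a1, a2, c, a3, a4, a5⟩ := hdet (xx ν) (Y ν + 2) (w ν + 1) (r ν) g1 (by omega)
      (hX1 ν) (by omega) g11 g3.le (G.h ν) (A ν) (F ν) (Fin N → ℤ) (Z ν) (G.sp ν) (z ν) (by
        intro t ht
        obtain ⟨ht1, ht2, ht3⟩ := (hZ ν t).1 ht
        obtain ⟨z1, z2, z3⟩ := g5 t ht1
        refine ⟨g10 t ht1, z3, ?_, ?_, ?_, ?_⟩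
        · intro b
          show |t (G.ι b)| ≤ _
          have := (g6 t ht1 (G.ι b)).2
          push_cast
          linarith
        · calc |z ν t| ≤ 2 ^ w ν := z2
            _ ≤ (xx ν : ℤ) ^ w ν := pow_le_pow_left₀ (by norm_num) (by exact_mod_cast g2) _
            _ ≤ (xx ν : ℤ) ^ (w ν + 1) :=
                pow_le_pow_right₀ (by exact_mod_cast (hX ν).1) (by omega)
        · rw [map_mul]
          have hr0 : (r ν : ℤ) ≠ 0 := by exact_mod_cast (by omega : r ν ≠ 0)
          exact mul_ne_zero (mul_ne_zero ht2 ht3) (mul_ne_zero hr0 z1)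
        · rw [map_mul, abs_mul, abs_mul, abs_mul]
          have b1 := g9 (G.sp ν t) (g7 t ht1)
          have b2 := g8 (G.sp ν t) (g7 t ht1)
          have b3 : |(r ν : ℤ)| ≤ 2 ^ r ν := by
            rw [Nat.abs_cast]
            exact_mod_cast Nat.lt_two_pow_self.le
          calc |eval (G.sp ν t) (pderiv none (G.h ν))| * |eval (G.sp ν t) (A ν)| *
                (|(r ν : ℤ)| * |z ν t|) ≤ 2 ^ uh ν * 2 ^ uA ν * (2 ^ r ν * 2 ^ w ν) := by
                apply mul_le_mul
                · exact mul_le_mul b1 b2 (abs_nonneg _) (by positivity)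
                · exact mul_le_mul b3 z2 (abs_nonneg _) (by positivity)
                · positivity
                · positivity
            _ = 2 ^ (uh ν + uA ν + (r ν + w ν)) := by
                rw [pow_add, pow_add, pow_add]
            _ < 2 ^ xx ν := pow_lt_pow_right₀ (by norm_num) g4)
    refine ⟨(T', PP c), a1, a2, PP_ne a3, PP_deg c, ?_, ?_⟩
    · intro i
      show ((PP c).coeff i).totalDegree ≤ _ ∧ nm ((PP c).coeff i) ≤ _
      rw [PP_coeff]
      split_ifs with hi
      · refine ⟨td_cf c _, nm_cf (B := xx ν ^ (D * (w ν + 1))) ?_ _⟩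
        intro e l
        push_cast
        exact a4 e l
      · simp [nm_zero]
    · intro t ht
      show ((PP c).map _).eval _ = 0
      rw [PP_eval]
      exact a5 t ht
  obtain ⟨TP, hTP⟩ := key.choice
  -- the large subset
  have hT'big : Big Y (fun ν => (TP ν).1) := by
    refine Big.frac hY (A := Z) (X := xx) (m := m) (e := 2 * G.d + 7) (k := k) (by omega) hm ?_ ?_
    · filter_upwards [hTP] with ν hν
      exact hν.2.1
    · exact Filter.Eventually.of_forall fun ν => ⟨(hX ν).1, (hX ν).2.2⟩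
  -- nonvanishing on the generic fibre
  have hAInP : ∀ᶠ ν in (Uf : Filter ℕ), ¬ InP (G.h ν) (A ν) := notInP h5 hY hbig G hAne
  have hFInP : ∀ᶠ ν in (Uf : Filter ℕ), ¬ InP (G.h ν) (F ν) := by
    apply notInP h5 hY hbig G
    intro hcon
    apply hAne
    refine hcon.mono ?_
    filter_upwards [hz] with ν a t ht
    rw [Finset.mem_filter] at ht ⊢
    refine ⟨ht.1, ?_⟩
    obtain ⟨z1, z2, z3⟩ := a t ht.1
    rw [ht.2] at z3
    exact (mul_eq_zero.1 z3).resolve_right (pow_ne_zero _ z1)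
  have hA0 : ∀ᶠ ν in (Uf : Filter ℕ), A ν ≠ 0 := by
    filter_upwards [hAInP] with ν a h0
    apply a
    rw [h0]
    exact ⟨1, one_ne_zero, by simp⟩
  -- the resultant
  obtain ⟨res, hres⟩ : ∃ res : ℕ → MvPolynomial (Option (Fin G.d)) ℤ,
      ∀ ν, res ν = RR (TP ν).2 (A ν) (F ν) (r ν) := ⟨_, fun _ => rfl⟩
  -- the exponent of the norms of the coefficients
  obtain ⟨v, hv⟩ : ∃ v : ℕ → ℕ, ∀ ν, v ν = (G.d * (I * (w ν + 1)) +
      (k + lg Y ν) * (D * (w ν + 1))) + (vA ν + vF ν) := ⟨_, fun _ => rfl⟩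
  have hvf : Few Y v := by
    have e1 : Few Y (fun ν => (G.d * (I * (w ν + 1)) +
      (k + lg Y ν) * (D * (w ν + 1))) + (vA ν + vF ν)) :=
      (((Few.const hY G.d).mul ((Few.const hY I).mul hWf)).add hY
        (((Few.const hY k).add hY (few_lg hY)).mul ((Few.const hY D).mul hWf))).add hY
        (hvA.add hY hvF)
    exact e1.mono (Filter.Eventually.of_forall fun ν => (hv ν).le)
  have hresbd : ∀ᶠ ν in (Uf : Filter ℕ), (res ν).totalDegree ≤
      (I + r ν) * ((I + r ν) + (v ν + 1)) ∧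
      nm (res ν) ≤ 2 ^ ((I + r ν) * ((I + r ν) + (v ν + 1))) := by
    filter_upwards [hTP, hvA', hvF'] with ν a1 a2 a3
    rw [hres]
    refine RR_bd a1.2.2.2.1 ?_ ?_ ?_
    · intro i
      obtain ⟨b1, b2⟩ := a1.2.2.2.2.1 i
      refine ⟨b1.trans (by rw [hv]; omega), b2.trans ?_⟩
      have hxx : xx ν ≤ 2 ^ (k + lg Y ν) := by
        calc xx ν ≤ xx ν ^ k := Nat.le_self_pow (by omega) _
          _ ≤ 2 ^ k * (Y ν + 2) := (hX ν).2.2
          _ ≤ 2 ^ k * 2 ^ lg Y ν := Nat.mul_le_mul_left _ (y_le_nat Y ν)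
          _ = 2 ^ (k + lg Y ν) := by rw [pow_add]
      calc (I * (w ν + 1)) ^ G.d * xx ν ^ (D * (w ν + 1)) ≤
            (2 ^ (I * (w ν + 1))) ^ G.d * (2 ^ (k + lg Y ν)) ^ (D * (w ν + 1)) :=
            Nat.mul_le_mul (Nat.pow_le_pow_left Nat.lt_two_pow_self.le _)
              (Nat.pow_le_pow_left hxx _)
        _ = 2 ^ (G.d * (I * (w ν + 1)) + (k + lg Y ν) * (D * (w ν + 1))) := by
            rw [← pow_mul, ← pow_mul, ← pow_add]
            congr 1
            ring
        _ ≤ 2 ^ v ν := Nat.pow_le_pow_right (by norm_num) (by rw [hv]; omega)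
    · refine ⟨a2.1.trans (by rw [hv]; omega), a2.2.trans ?_⟩
      exact Nat.pow_le_pow_right (by norm_num) (by rw [hv]; omega)
    · refine ⟨a3.1.trans (by rw [hv]; omega), a3.2.trans ?_⟩
      exact Nat.pow_le_pow_right (by norm_num) (by rw [hv]; omega)
  have hIr : Few Y (fun ν => I + r ν) := (Few.const hY I).add hY hrf
  have hresmild : Mild Y res :=
    nm_mild (hIr.mul (hIr.add hY (hvf.add hY (Few.const hY 1)))) hresbd
  have hresbig : Big Y (fun ν => (Om ν).filter fun t => eval (G.sp ν t) (res ν) = 0) := by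
    refine hT'big.mono ?_
    filter_upwards [hTP, hA0, hr 1, hz] with ν a1 a2 a3 a4 t ht
    have ht1 := ((hZ ν t).1 (a1.1 ht)).1
    rw [Finset.mem_filter, hres]
    exact ⟨ht1, RR_eval a2 a3 (a1.2.2.2.2.2 t ht) (a4 t ht1).2.2⟩
  have hresInP := h2 Y N Om hY hbig hb G res hresmild hresbig
  -- the end
  refine ⟨I, ?_⟩
  filter_upwards [hresInP, h4 Y N Om hY hbig hb G, hTP, hAInP, hFInP, hr 1] with
    ν b1 b2 b3 b4 b5 b6
  rw [hres] at b1
  obtain ⟨κ, k1, k2, g₁, g₂, k3, k4, k5⟩ := h3 G.d (G.h ν) b2 (TP ν).2 (A ν) (F ν) (r ν)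
    b3.2.2.1 b6 b4 b5 b1
  exact ⟨κ, k1, k2.trans b3.2.2.2.1, g₁, g₂, k3, k4, k5⟩

end

end Pool.Agent.N26.HB
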