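import Mathlib

set_option autoImplicit false

/-!
# The sum of the absolute values of the coefficients (helper26, for project HB)
-/

namespace Pool.Agent.N26.HB

open MvPolynomial Finset

noncomputable section

variable {σ τ : Type}

/-- the sum of the absolute values of the coefficients -/
def nm (p : MvPolynomial σ ℤ) : ℕ := ∑ m ∈ p.support, (p.coeff m).natAbs

theorem nm_eq {p : MvPolynomial σ ℤ} {S : Finset (σ →₀ ℕ)} (h : p.support ⊆ S) :
    nm p = ∑ m ∈ S, (p.coeff m).natAbs := by
  unfold nm
  apply Finset.sum_subset h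
  intro m _ hm
  rw [notMem_support_iff.mp hm]
  rfl

theorem nm_add (p q : MvPolynomial σ ℤ) : nm (p + q) ≤ nm p + nm q := by
  classical
  rw [nm_eq (S := p.support ∪ q.support) support_add,
    nm_eq (p := p) (S := p.support ∪ q.support) subset_union_left,
    nm_eq (p := q) (S := p.support ∪ q.support) subset_union_right, ← Finset.sum_add_distrib]
  apply Finset.sum_le_sum
  intro m _
  rw [coeff_add]
  exact Int.natAbs_add_le _ _

theorem nm_zero : nm (0 : MvPolynomial σ ℤ) = 0 := by
  simp [nm]

theorem nm_sum {ι : Type} (s : Finset ι) (f : ι → MvPolynomial σ ℤ) :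
    nm (∑ i ∈ s, f i) ≤ ∑ i ∈ s, nm (f i) := by
  classical
  induction s using Finset.induction_on with
  | empty => simp [nm_zero]
  | insert a s ha ih =>
    rw [Finset.sum_insert ha, Finset.sum_insert ha]
    exact (nm_add _ _).trans (Nat.add_le_add_left ih _)

theorem nm_monomial (m : σ →₀ ℕ) (a : ℤ) : nm (monomial m a) ≤ a.natAbs := by
  classical
  rw [nm_eq (S := {m}) support_monomial_subset, Finset.sum_singleton, coeff_monomial, if_pos rfl]

theorem nm_mul (p q : MvPolynomial σ ℤ) : nm (p * q) ≤ nm p * nm q := by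
  have h1 : p * q = ∑ m ∈ p.support, ∑ m' ∈ q.support,
      monomial (m + m') (p.coeff m * q.coeff m') := by
    conv_lhs => rw [p.as_sum, q.as_sum]
    rw [Finset.sum_mul_sum]
    apply Finset.sum_congr rfl
    intro m _
    apply Finset.sum_congr rfl
    intro m' _
    rw [monomial_mul]
  rw [h1]
  refine (nm_sum _ _).trans ?_
  unfold nm
  rw [Finset.sum_mul_sum]
  apply Finset.sum_le_sum
  intro m _
  refine (nm_sum _ _).trans ?_
  apply Finset.sum_le_sum
  intro m' _
  refine (nm_monomial _ _).trans ?_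
  rw [Int.natAbs_mul]

theorem nm_C (a : ℤ) : nm (C a : MvPolynomial σ ℤ) ≤ a.natAbs := nm_monomial 0 a

theorem nm_one : nm (1 : MvPolynomial σ ℤ) ≤ 1 := nm_C 1

theorem nm_X (i : σ) : nm (X i : MvPolynomial σ ℤ) ≤ 1 := nm_monomial _ 1

theorem nm_pow (p : MvPolynomial σ ℤ) (k : ℕ) : nm (p ^ k) ≤ nm p ^ k := by
  induction k with
  | zero => simpa using nm_one
  | succ k ih =>
    rw [pow_succ, pow_succ]
    exact (nm_mul _ _).trans (Nat.mul_le_mul_right _ ih)

theorem nm_prod {ι : Type} (s : Finset ι) (f : ι → MvPolynomial σ ℤ) :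
    nm (∏ i ∈ s, f i) ≤ ∏ i ∈ s, nm (f i) := by
  classical
  induction s using Finset.induction_on with
  | empty => simpa using nm_one
  | insert a s ha ih =>
    rw [Finset.prod_insert ha, Finset.prod_insert ha]
    exact (nm_mul _ _).trans (Nat.mul_le_mul_left _ ih)

theorem nm_neg (p : MvPolynomial σ ℤ) : nm (-p) = nm p := by
  unfold nm
  rw [support_neg]
  apply Finset.sum_congr rfl
  intro m _
  rw [coeff_neg, Int.natAbs_neg]

theorem nm_sub (p q : MvPolynomial σ ℤ) : nm (p - q) ≤ nm p + nm q := by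
  rw [sub_eq_add_neg, ← nm_neg q]
  exact nm_add _ _

theorem nm_rename (f : σ → τ) (p : MvPolynomial σ ℤ) : nm (rename f p) ≤ nm p := by
  have h1 : rename f p = ∑ m ∈ p.support, monomial (m.mapDomain f) (p.coeff m) := by
    conv_lhs => rw [p.as_sum]
    rw [map_sum]
    apply Finset.sum_congr rfl
    intro m _
    rw [rename_monomial]
  rw [h1]
  refine (nm_sum _ _).trans ?_
  exact Finset.sum_le_sum (fun m _ => nm_monomial _ _)

theorem coeff_le (p : MvPolynomial σ ℤ) (m : σ →₀ ℕ) : |p.coeff m| ≤ (nm p : ℤ) := by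
  by_cases hm : m ∈ p.support
  · have h1 : (p.coeff m).natAbs ≤ nm p :=
      Finset.single_le_sum (f := fun m => (p.coeff m).natAbs) (fun _ _ => Nat.zero_le _) hm
    rw [Int.abs_eq_natAbs]
    exact_mod_cast h1
  · rw [notMem_support_iff.mp hm]
    simp

theorem eval_le {p : MvPolynomial σ ℤ} {s : σ → ℤ} {B : ℤ} {D : ℕ} (hB : 1 ≤ B)
    (hs : ∀ o, |s o| ≤ B) (hD : p.totalDegree ≤ D) : |eval s p| ≤ (nm p : ℤ) * B ^ D := by
  rw [eval_eq]
  refine (Finset.abs_sum_le_sum_abs _ _).trans ?_
  unfold nm
  rw [Nat.cast_sum, Finset.sum_mul]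
  apply Finset.sum_le_sum
  intro m hm
  rw [abs_mul, Int.abs_eq_natAbs (p.coeff m)]
  apply mul_le_mul_of_nonneg_left _ (by positivity)
  rw [Finset.abs_prod]
  calc ∏ i ∈ m.support, |s i ^ m i| ≤ ∏ i ∈ m.support, B ^ m i := by
        apply Finset.prod_le_prod
        · intro i _
          exact abs_nonneg _
        · intro i _
          rw [abs_pow]
          exact pow_le_pow_left₀ (abs_nonneg _) (hs i) _
    _ = B ^ (∑ i ∈ m.support, m i) := Finset.prod_pow_eq_pow_sum _ _ _
    _ ≤ B ^ D := by
        apply pow_le_pow_right₀ hB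
        exact (le_totalDegree hm).trans hD

theorem nm_le_of_bd [Fintype σ] {p : MvPolynomial σ ℤ} {D M : ℕ} (hD : p.totalDegree ≤ D)
    (hM : ∀ m, (p.coeff m).natAbs ≤ M) : nm p ≤ (D + 1) ^ Fintype.card σ * M := by
  classical
  have h1 : p.support.card ≤ (D + 1) ^ Fintype.card σ := by
    have h2 : (p.support.image (fun m : σ →₀ ℕ => (m : σ → ℕ))).card = p.support.card := by
      apply Finset.card_image_of_injective
      exact DFunLike.coe_injective
    rw [← h2]
    have h3 : p.support.image (fun m : σ →₀ ℕ => (m : σ → ℕ)) ⊆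
        Fintype.piFinset (fun _ : σ => Finset.range (D + 1)) := by
      intro g hg
      rw [Finset.mem_image] at hg
      obtain ⟨m, hm, rfl⟩ := hg
      rw [Fintype.mem_piFinset]
      intro i
      rw [Finset.mem_range]
      have h4 : m i ≤ D := by
        have h5 := (le_totalDegree hm).trans hD
        by_cases hi : i ∈ m.support
        · refine le_trans ?_ h5
          exact Finset.single_le_sum (f := fun i => m i) (fun _ _ => Nat.zero_le _) hi
        · rw [Finsupp.notMem_support_iff.mp hi]
          exact Nat.zero_le _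
      omega
    refine (Finset.card_le_card h3).trans ?_
    rw [Fintype.card_piFinset]
    simp
  unfold nm
  calc ∑ m ∈ p.support, (p.coeff m).natAbs ≤ ∑ _m ∈ p.support, M :=
        Finset.sum_le_sum (fun m _ => hM m)
    _ = p.support.card * M := by rw [Finset.sum_const, smul_eq_mul]
    _ ≤ _ := Nat.mul_le_mul_right _ h1

theorem nm_pderiv (i : σ) {p : MvPolynomial σ ℤ} {D : ℕ} (hD : p.totalDegree ≤ D) :
    nm (pderiv i p) ≤ D * nm p := by
  have h1 : pderiv i p = ∑ m ∈ p.support, monomial (m - Finsupp.single i 1) (p.coeff m * m i) := by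
    conv_lhs => rw [p.as_sum]
    rw [map_sum]
    apply Finset.sum_congr rfl
    intro m _
    rw [pderiv_monomial]
  rw [h1]
  refine (nm_sum _ _).trans ?_
  unfold nm
  rw [Finset.mul_sum]
  apply Finset.sum_le_sum
  intro m hm
  refine (nm_monomial _ _).trans ?_
  rw [Int.natAbs_mul, Int.natAbs_natCast, mul_comm]
  apply Nat.mul_le_mul_right
  have h5 := (le_totalDegree hm).trans hD
  by_cases hi : i ∈ m.support
  · refine le_trans ?_ h5
    exact Finset.single_le_sum (f := fun i => m i) (fun _ _ => Nat.zero_le _) hi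
  · rw [Finsupp.notMem_support_iff.mp hi]
    exact Nat.zero_le _

theorem td_pderiv (i : σ) (p : MvPolynomial σ ℤ) :
    (pderiv i p).totalDegree ≤ p.totalDegree := by
  have h1 : pderiv i p = ∑ m ∈ p.support, monomial (m - Finsupp.single i 1) (p.coeff m * m i) := by
    conv_lhs => rw [p.as_sum]
    rw [map_sum]
    apply Finset.sum_congr rfl
    intro m _
    rw [pderiv_monomial]
  rw [h1]
  apply totalDegree_finsetSum_le
  intro m hm
  refine (totalDegree_monomial_le _ _).trans ?_
  refine le_trans ?_ (le_totalDegree hm)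
  have h2 : (m - Finsupp.single i 1).support ⊆ m.support := by
    intro j hj
    rw [Finsupp.mem_support_iff, Finsupp.tsub_apply] at hj
    rw [Finsupp.mem_support_iff]
    omega
  rw [Finsupp.sum_of_support_subset _ h2 _ (fun _ _ => rfl)]
  apply Finset.sum_le_sum
  intro j _
  rw [Finsupp.tsub_apply]
  exact Nat.sub_le _ _

/-! ### Determinants and resultants -/

theorem nm_unit (u : ℤˣ) (p : MvPolynomial σ ℤ) : nm (u • p) = nm p := by
  rcases Int.units_eq_one_or u with h | h
  · rw [h, one_smul]
  · rw [h, Units.neg_smul, one_smul, nm_neg]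

theorem td_unit (u : ℤˣ) (p : MvPolynomial σ ℤ) : (u • p).totalDegree = p.totalDegree := by
  rcases Int.units_eq_one_or u with h | h
  · rw [h, one_smul]
  · rw [h, Units.neg_smul, one_smul, totalDegree_neg]

theorem nm_det {N : ℕ} (M : Matrix (Fin N) (Fin N) (MvPolynomial σ ℤ)) {B : ℕ}
    (hM : ∀ i j, nm (M i j) ≤ B) : nm M.det ≤ N.factorial * B ^ N := by
  rw [Matrix.det_apply]
  refine (nm_sum _ _).trans ?_
  calc ∑ g : Equiv.Perm (Fin N), nm (Equiv.Perm.sign g • ∏ i, M (g i) i)
      ≤ ∑ _g : Equiv.Perm (Fin N), B ^ N := by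
        apply Finset.sum_le_sum
        intro g _
        rw [nm_unit]
        refine (nm_prod _ _).trans ?_
        refine (Finset.prod_le_prod' (fun i _ => hM (g i) i)).trans ?_
        simp
    _ = N.factorial * B ^ N := by
        rw [Finset.sum_const, Finset.card_univ, Fintype.card_perm, Fintype.card_fin, smul_eq_mul]

theorem td_det {N : ℕ} (M : Matrix (Fin N) (Fin N) (MvPolynomial σ ℤ)) {D : ℕ}
    (hM : ∀ i j, (M i j).totalDegree ≤ D) : M.det.totalDegree ≤ N * D := by
  rw [Matrix.det_apply]
  apply totalDegree_finsetSum_le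
  intro g _
  rw [td_unit]
  refine (totalDegree_finsetProd _ _).trans ?_
  calc ∑ i, (M (g i) i).totalDegree ≤ ∑ _i : Fin N, D := Finset.sum_le_sum (fun i _ => hM _ _)
    _ = N * D := by simp

theorem sylv_entry {R : Type} [Semiring R] (Q : R → Prop) (h0 : Q 0) (f g : Polynomial R)
    (hf : ∀ i, Q (f.coeff i)) (hg : ∀ i, Q (g.coeff i)) (m n : ℕ) (i j : Fin (m + n)) :
    Q (Polynomial.sylvester f g m n i j) := by
  unfold Polynomial.sylvester
  rw [Matrix.of_apply]
  induction j using Fin.addCases with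
  | left j =>
    rw [Fin.addCases_left]
    split_ifs
    · exact hg _
    · exact h0
  | right j =>
    rw [Fin.addCases_right]
    split_ifs
    · exact hf _
    · exact h0

theorem nm_res (f g : Polynomial (MvPolynomial σ ℤ)) (m n : ℕ) {B : ℕ}
    (hf : ∀ i, nm (f.coeff i) ≤ B) (hg : ∀ i, nm (g.coeff i) ≤ B) :
    nm (f.resultant g m n) ≤ (m + n).factorial * B ^ (m + n) := by
  unfold Polynomial.resultant
  apply nm_det
  intro i j
  exact sylv_entry (fun p => nm p ≤ B) (by simp [nm_zero]) f g hf hg m n i j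

theorem td_res (f g : Polynomial (MvPolynomial σ ℤ)) (m n : ℕ) {D : ℕ}
    (hf : ∀ i, (f.coeff i).totalDegree ≤ D) (hg : ∀ i, (g.coeff i).totalDegree ≤ D) :
    (f.resultant g m n).totalDegree ≤ (m + n) * D := by
  unfold Polynomial.resultant
  apply td_det
  intro i j
  exact sylv_entry (fun p => p.totalDegree ≤ D) (by simp) f g hf hg m n i j

end

end Pool.Agent.N26.HB
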