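import Pool.Agent.N741.HB.Stm
import Pool.Agent.N26.HB.Nm

set_option autoImplicit false

/-!
# Mild families and norms (helper26, for project HB)
-/

namespace Pool.Agent.N26.HB

open Filter MvPolynomial Pool.Agent.Y902.GN Pool.Agent.N741.HB

noncomputable section

variable {Y : ℕ → ℕ} {σ : Type}

/-- the logarithm of `Y` -/
def lg (Y : ℕ → ℕ) (ν : ℕ) : ℕ := Nat.log 2 (Y ν + 2) + 1

theorem few_lg (hY : ∀ m : ℕ, ∀ᶠ ν in (Uf : Filter ℕ), m ≤ Y ν) : Few Y (lg Y) :=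
  fun c => ev_log_pow hY c

theorem y_le_nat (Y : ℕ → ℕ) (ν : ℕ) : Y ν + 2 ≤ 2 ^ lg Y ν :=
  (Nat.lt_pow_succ_log_self (by norm_num) _).le

theorem y_le (Y : ℕ → ℕ) (ν : ℕ) : ((Y ν : ℤ) + 2) ≤ 2 ^ lg Y ν := by
  exact_mod_cast y_le_nat Y ν

theorem y_pow_le (Y : ℕ → ℕ) (ν c : ℕ) : ((Y ν : ℤ) + 2) ^ c ≤ 2 ^ (lg Y ν * c) := by
  rw [pow_mul]
  exact pow_le_pow_left₀ (by positivity) (y_le Y ν) c

theorem few_lt_X {X : ℕ → ℕ} {k : ℕ} (hX : ∀ ν, Y ν + 2 ≤ X ν ^ k) {f : ℕ → ℕ}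
    (hf : Few Y f) : ∀ᶠ ν in (Uf : Filter ℕ), f ν < X ν := by
  filter_upwards [hf k] with ν h1
  by_contra hcon
  push Not at hcon
  have h2 := Nat.pow_le_pow_left hcon k
  have := hX ν
  omega

/-- a mild family has norm `2 ^ Few` -/
theorem mild_nm [Fintype σ] (hY : ∀ m : ℕ, ∀ᶠ ν in (Uf : Filter ℕ), m ≤ Y ν)
    {p : ℕ → MvPolynomial σ ℤ} (h : Mild Y p) : ∃ v : ℕ → ℕ, Few Y v ∧
      ∀ᶠ ν in (Uf : Filter ℕ), (p ν).totalDegree ≤ v ν ∧ nm (p ν) ≤ 2 ^ v ν := by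
  obtain ⟨w, hw, h1⟩ := h
  refine ⟨fun ν => (Fintype.card σ + 1) * w ν, (Few.const hY _).mul hw, ?_⟩
  filter_upwards [h1] with ν h2
  constructor
  · exact h2.1.trans (Nat.le_mul_of_pos_left _ (by omega))
  · have h3 : nm (p ν) ≤ (w ν + 1) ^ Fintype.card σ * 2 ^ w ν := by
      apply nm_le_of_bd h2.1
      intro m
      have := h2.2 m
      rw [Int.abs_eq_natAbs] at this
      exact_mod_cast this
    refine h3.trans ?_
    calc (w ν + 1) ^ Fintype.card σ * 2 ^ w ν ≤ (2 ^ w ν) ^ Fintype.card σ * 2 ^ w ν :=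
          Nat.mul_le_mul_right _ (Nat.pow_le_pow_left Nat.lt_two_pow_self _)
      _ = 2 ^ ((Fintype.card σ + 1) * w ν) := by
          rw [← pow_mul, ← pow_add]
          congr 1
          ring

theorem nm_mild {p : ℕ → MvPolynomial σ ℤ} {v : ℕ → ℕ} (hv : Few Y v)
    (h : ∀ᶠ ν in (Uf : Filter ℕ), (p ν).totalDegree ≤ v ν ∧ nm (p ν) ≤ 2 ^ v ν) : Mild Y p := by
  refine ⟨v, hv, ?_⟩
  filter_upwards [h] with ν h1
  refine ⟨h1.1, fun m => (coeff_le _ m).trans ?_⟩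
  exact_mod_cast h1.2

theorem PB_mild (hY : ∀ m : ℕ, ∀ᶠ ν in (Uf : Filter ℕ), m ≤ Y ν) {p : ℕ → MvPolynomial σ ℤ}
    (h : PB Y p) : Mild Y p := by
  obtain ⟨C, hC⟩ := h
  refine ⟨fun ν => C + lg Y ν * C, (Few.const hY C).add hY ((few_lg hY).mul (Few.const hY C)), ?_⟩
  filter_upwards [hC] with ν h1
  refine ⟨h1.1.trans (by omega), fun m => (h1.2 m).trans ((y_pow_le Y ν C).trans ?_)⟩
  exact pow_le_pow_right₀ (by norm_num) (by omega)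

/-- values of mild polynomials -/
theorem val_bd (hY : ∀ m : ℕ, ∀ᶠ ν in (Uf : Filter ℕ), m ≤ Y ν) {p : ℕ → MvPolynomial σ ℤ}
    {v : ℕ → ℕ} (hv : Few Y v)
    (h : ∀ᶠ ν in (Uf : Filter ℕ), (p ν).totalDegree ≤ v ν ∧ nm (p ν) ≤ 2 ^ v ν) (C : ℕ) :
    ∃ u : ℕ → ℕ, Few Y u ∧ ∀ᶠ ν in (Uf : Filter ℕ), ∀ s : σ → ℤ,
      (∀ o, |s o| ≤ ((Y ν : ℤ) + 2) ^ C) → |eval s (p ν)| ≤ 2 ^ u ν := by
  refine ⟨fun ν => v ν + lg Y ν * C * v ν,
    hv.add hY (((few_lg hY).mul (Few.const hY C)).mul hv), ?_⟩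
  filter_upwards [h] with ν h1 s hs
  have h2 : (1 : ℤ) ≤ ((Y ν : ℤ) + 2) ^ C := one_le_pow₀ (by omega)
  refine (eval_le h2 hs h1.1).trans ?_
  rw [pow_add]
  apply mul_le_mul
  · exact_mod_cast h1.2
  · rw [pow_mul]
    exact pow_le_pow_left₀ (by positivity) (y_pow_le Y ν C) _
  · positivity
  · positivity

/-! ### Generic data -/

variable {N : ℕ} {Om : ℕ → Finset (Fin N → ℤ)}

theorem sp_bd (hb : Bdd Y Om) (G : GD Y Om) : ∃ C : ℕ, ∀ᶠ ν in (Uf : Filter ℕ), ∀ t ∈ Om ν,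
    ∀ o, |G.sp ν t o| ≤ ((Y ν : ℤ) + 2) ^ C := by
  obtain ⟨C, hC⟩ := G.θbd
  refine ⟨max C 1, ?_⟩
  filter_upwards [hC, hb] with ν h1 h2 t ht o
  have a0 : (1 : ℤ) ≤ (Y ν : ℤ) + 2 := by omega
  rcases o with _ | b
  · exact (h1 t ht).trans (pow_le_pow_right₀ a0 (le_max_left _ _))
  · show |t (G.ι b)| ≤ _
    have := (h2 t ht (G.ι b)).2
    calc |t (G.ι b)| ≤ ((Y ν : ℤ) + 2) ^ 1 := by rw [pow_one]; omega
      _ ≤ _ := pow_le_pow_right₀ a0 (le_max_right _ _)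

theorem InP_mul {d : ℕ} {h p : MvPolynomial (Option (Fin d)) ℤ} (hp : InP h p)
    (q : MvPolynomial (Option (Fin d)) ℤ) : InP h (q * p) := by
  obtain ⟨c, hc, r, hr⟩ := hp
  refine ⟨c, hc, q * r, ?_⟩
  linear_combination q * hr

/-- a polynomial which is nonzero at most points is not zero on the generic fibre -/
theorem notInP (h5 : S_van) (hY : ∀ m : ℕ, ∀ᶠ ν in (Uf : Filter ℕ), m ≤ Y ν) (hbig : Big Y Om)
    (G : GD Y Om) {A : ℕ → MvPolynomial (Option (Fin G.d)) ℤ}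
    (hA : ¬ Big Y (fun ν => (Om ν).filter fun t => eval (G.sp ν t) (A ν) = 0)) :
    ∀ᶠ ν in (Uf : Filter ℕ), ¬ InP (G.h ν) (A ν) := by
  classical
  rw [ev_not]
  intro hall
  have hex : ∀ᶠ ν in (Uf : Filter ℕ), ∃ l : MvPolynomial (Fin G.d) ℤ, l ≠ 0 ∧
      l.totalDegree ≤ (G.h ν).totalDegree ∧ (∀ m, ∃ m', l.coeff m = (G.h ν).coeff m') ∧
      ∃ k : ℕ, G.h ν ∣ rename some l ^ k * A ν := by
    filter_upwards [hall, G.hne, G.hone] with ν a1 a2 a3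
    obtain ⟨l, b1, b2, b3, b4⟩ := h5 G.d (G.h ν) a2 a3
    exact ⟨l, b1, b2, b3, b4 _ a1⟩
  obtain ⟨l, hl⟩ := hex.choice
  have hlPB : PB Y l := by
    obtain ⟨C, hC⟩ := G.hPB
    refine ⟨C, ?_⟩
    filter_upwards [hC, hl] with ν a1 a2
    refine ⟨a2.2.1.trans a1.1, fun m => ?_⟩
    obtain ⟨m', hm'⟩ := a2.2.2.1 m
    rw [hm']
    exact a1.2 m'
  have hlne : ∀ᶠ ν in (Uf : Filter ℕ), l ν ≠ 0 := hl.mono fun ν a => a.1
  rcases hbig.or hY (B := fun ν => (Om ν).filter fun t => eval (fun b => t (G.ι b)) (l ν) = 0)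
    (C := fun ν => (Om ν).filter fun t => eval (G.sp ν t) (A ν) = 0) (by
      filter_upwards [hl, G.ev_h] with ν a1 a2 t ht
      obtain ⟨k, q, hq⟩ := a1.2.2.2
      have h1 : eval (G.sp ν t) (G.h ν) = 0 := a2 t ht
      have h2 := congrArg (eval (G.sp ν t)) hq
      rw [map_mul, map_mul, map_pow, h1, zero_mul, eval_rename] at h2
      rw [Finset.mem_union, Finset.mem_filter, Finset.mem_filter]
      rcases mul_eq_zero.1 h2 with h3 | h3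
      · exact Or.inl ⟨ht, eq_zero_of_pow_eq_zero h3⟩
      · exact Or.inr ⟨ht, h3⟩) with h | h
  · exact G.small l hlPB hlne h
  · exact hA h

end

end Pool.Agent.N26.HB
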