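import Pool.Agent.N741.HB.Stm2
import Pool.Agent.N741.HB.Core
import Pool.Agent.N26.HB.Rel
import Pool.Agent.N54.HB.A3

set_option autoImplicit false

/-!
# Factors of bounded degree over the function field (S_relP; helper26, for project HB)
-/

namespace Pool.Agent.N26.HB

open Filter MvPolynomial Pool.Agent.Y902.GN Pool.Agent.N741.HB

noncomputable section

/-- clearing denominators -/
theorem clearL {R L : Type} [CommRing R] [Field L] (φ : R →+* L)
    (hfrac : ∀ z : L, ∃ a b, φ b ≠ 0 ∧ z = φ a / φ b) (f : Polynomial L) :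
    ∃ (c : R) (F : Polynomial R), φ c ≠ 0 ∧ F.natDegree ≤ f.natDegree ∧
      F.map φ = Polynomial.C (φ c) * f := by
  classical
  choose a b hb hab using fun i => hfrac (f.coeff i)
  refine ⟨∏ i ∈ Finset.range (f.natDegree + 1), b i,
    ∑ i ∈ Finset.range (f.natDegree + 1), Polynomial.C
      (a i * ∏ j ∈ (Finset.range (f.natDegree + 1)).erase i, b j) * Polynomial.X ^ i, ?_, ?_, ?_⟩
  · rw [map_prod]
    exact Finset.prod_ne_zero_iff.2 fun i _ => hb i
  · refine Polynomial.natDegree_sum_le_of_forall_le _ _ fun i hi => ?_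
    refine (Polynomial.natDegree_C_mul_X_pow_le _ _).trans ?_
    rw [Finset.mem_range] at hi
    omega
  · rw [Polynomial.map_sum]
    obtain ⟨n, hn⟩ : ∃ n, n = f.natDegree + 1 := ⟨_, rfl⟩
    have hf : f = ∑ i ∈ Finset.range n, Polynomial.C (f.coeff i) * Polynomial.X ^ i := by
      rw [hn]; exact f.as_sum_range_C_mul_X_pow
    rw [← hn]
    conv_rhs => rw [hf]
    rw [Finset.mul_sum]
    refine Finset.sum_congr rfl fun i hi => ?_
    rw [Polynomial.map_mul, Polynomial.map_C, Polynomial.map_pow, Polynomial.map_X, ← mul_assoc,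
      ← Polynomial.C_mul]
    congr 2
    rw [hab i, map_mul, map_prod, map_prod, ← Finset.mul_prod_erase _ _ hi]
    have := hb i
    field_simp

/-- truncation -/
def tr {R : Type} [CommRing R] (n : ℕ) (P : Polynomial R) : Polynomial R :=
  ∑ k ∈ Finset.range (n + 1), Polynomial.C (P.coeff k) * Polynomial.X ^ k

theorem tr_coeff {R : Type} [CommRing R] (n : ℕ) (P : Polynomial R) (i : ℕ) :
    (tr n P).coeff i = if i ≤ n then P.coeff i else 0 := by
  unfold tr
  rw [Polynomial.finsetSum_coeff]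
  simp only [Polynomial.coeff_C_mul_X_pow]
  split_ifs with h
  · rw [Finset.sum_eq_single i]
    · simp
    · intro l _ hl
      rw [if_neg hl.symm]
    · intro h3
      exact absurd (Finset.mem_range.2 (by omega)) h3
  · apply Finset.sum_eq_zero
    intro l hl
    rw [Finset.mem_range] at hl
    rw [if_neg (by omega)]

theorem tr_deg_le {R : Type} [CommRing R] (n : ℕ) (P : Polynomial R) :
    (tr n P).natDegree ≤ n := by
  rw [Polynomial.natDegree_le_iff_coeff_eq_zero]
  intro i hi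
  rw [tr_coeff, if_neg (by omega)]

theorem InP_zero {d : ℕ} (h : MvPolynomial (Option (Fin d)) ℤ) : InP h 0 :=
  ⟨1, one_ne_zero, by simp⟩

/-- the algebraic part -/
theorem algP {d : ℕ} {h : MvPolynomial (Option (Fin d)) ℤ} (hI : Irr h)
    (Q : Polynomial (MvPolynomial (Fin d) ℤ)) (P : Polynomial (MvPolynomial (Option (Fin d)) ℤ))
    (n : ℕ) (hQ : Q ≠ 0) (hPn : ¬ InP h (P.coeff n))
    (hPk : ∀ k, n < k → InP h (P.coeff k))
    (hres : InP h (Polynomial.resultant (Q.map (rename some).toRingHom) (tr n P))) :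
    ∃ (M M' : Polynomial (MvPolynomial (Option (Fin d)) ℤ)) (c : MvPolynomial (Option (Fin d)) ℤ),
      1 ≤ M.natDegree ∧ M.natDegree ≤ Q.natDegree ∧ ¬ InP h M.leadingCoeff ∧ ¬ InP h c ∧
      ∀ k, InP h ((Polynomial.C c * P - M * M').coeff k) := by
  classical
  obtain ⟨L, _, φ, hφ, hfrac⟩ := N54.HB.exL h hI
  set ι : MvPolynomial (Fin d) ℤ →+* MvPolynomial (Option (Fin d)) ℤ :=
    (rename some : MvPolynomial (Fin d) ℤ →ₐ[ℤ] MvPolynomial (Option (Fin d)) ℤ).toRingHom with hι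
  have hιinj : Function.Injective ι := rename_injective _ (Option.some_injective _)
  set ψ : MvPolynomial (Fin d) ℤ →+* L := φ.comp ι with hψ
  have hψinj : Function.Injective ψ := by
    rw [injective_iff_map_eq_zero]
    intro c hc
    by_contra hc0
    obtain ⟨c', hc', hdvd⟩ := (hφ (rename some c)).1 hc
    apply hI.one
    refine ⟨c' * c, mul_ne_zero hc' hc0, ?_⟩
    rw [map_mul, mul_one]
    exact hdvd
  set P1 := tr n P with hP1
  have hφn : φ (P.coeff n) ≠ 0 := fun h0 => hPn ((hφ _).1 h0)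
  have hPn0 : P.coeff n ≠ 0 := fun h0 => hφn (by rw [h0, map_zero])
  have hP1n : P1.coeff n = P.coeff n := by rw [hP1, tr_coeff, if_pos le_rfl]
  have hP1d : P1.natDegree = n := by
    apply le_antisymm (tr_deg_le n P)
    exact Polynomial.le_natDegree_of_ne_zero (by rw [hP1n]; exact hPn0)
  have hmapP : P1.map φ = P.map φ := by
    ext i
    rw [Polynomial.coeff_map, Polynomial.coeff_map, hP1, tr_coeff]
    split_ifs with hi
    · rfl
    · rw [map_zero, (hφ _).2 (hPk i (by omega))]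
  set P' : Polynomial L := P.map φ with hP'
  set Q' : Polynomial L := Q.map ψ with hQ'
  have hQ'0 : Q' ≠ 0 := (Polynomial.map_ne_zero_iff hψinj).2 hQ
  have hP'd : P'.natDegree = n := by
    rw [← hmapP]
    rw [Polynomial.natDegree_map_of_leadingCoeff_ne_zero, hP1d]
    rw [Polynomial.leadingCoeff, hP1d, hP1n]
    exact hφn
  have hres' : Polynomial.resultant Q' P' = 0 := by
    have e1 : Q' = (Q.map ι).map φ := by rw [hQ', hψ, Polynomial.map_map]
    have e3 : Q'.natDegree = (Q.map ι).natDegree := by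
      rw [hQ', Polynomial.natDegree_map_eq_of_injective hψinj,
        Polynomial.natDegree_map_eq_of_injective hιinj]
    have e4 : P'.natDegree = P1.natDegree := by rw [hP'd, hP1d]
    rw [e3, e4]
    conv_lhs => rw [e1, ← hmapP]
    rw [Polynomial.resultant_map_map]
    exact (hφ _).2 hres
  rw [Polynomial.resultant_eq_zero_iff] at hres'
  have h1 := hres'.2
  rw [← EuclideanDomain.gcd_isUnit_iff] at h1
  obtain ⟨g, hg⟩ : ∃ g, g = EuclideanDomain.gcd Q' P' := ⟨_, rfl⟩
  rw [← hg] at h1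
  have hgQ : g ∣ Q' := hg ▸ EuclideanDomain.gcd_dvd_left _ _
  have hgP : g ∣ P' := hg ▸ EuclideanDomain.gcd_dvd_right _ _
  have hg0 : g ≠ 0 := by
    rintro rfl
    exact hQ'0 (zero_dvd_iff.1 hgQ)
  have hgd : 1 ≤ g.natDegree := by
    by_contra hcon
    have h2 : g.natDegree = 0 := by omega
    apply h1
    rw [Polynomial.isUnit_iff_degree_eq_zero, Polynomial.degree_eq_natDegree hg0, h2]
    rfl
  have hgd2 : g.natDegree ≤ Q.natDegree := by
    refine (Polynomial.natDegree_le_of_dvd hgQ hQ'0).trans ?_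
    rw [hQ', Polynomial.natDegree_map_eq_of_injective hψinj]
  obtain ⟨N', hN'⟩ := hgP
  obtain ⟨c₁, M, hc₁, hM1, hM2⟩ := clearL φ hfrac g
  obtain ⟨c₂, M', hc₂, -, hM'2⟩ := clearL φ hfrac N'
  have hMd : M.natDegree = g.natDegree := by
    apply le_antisymm hM1
    have h2 : (M.map φ).natDegree = g.natDegree := by
      rw [hM2, Polynomial.natDegree_C_mul hc₁]
    rw [← h2]
    exact Polynomial.natDegree_map_le
  refine ⟨M, M', c₁ * c₂, by omega, by omega, ?_, ?_, ?_⟩
  · intro h0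
    have h2 : φ (M.coeff g.natDegree) = φ c₁ * g.leadingCoeff := by
      rw [← Polynomial.coeff_map, hM2, Polynomial.coeff_C_mul]
      rfl
    rw [Polynomial.leadingCoeff, hMd] at h0
    rw [(hφ _).2 h0] at h2
    exact mul_ne_zero hc₁ (Polynomial.leadingCoeff_ne_zero.2 hg0) h2.symm
  · intro h0
    have h2 := (hφ _).2 h0
    rw [map_mul] at h2
    exact mul_ne_zero hc₁ hc₂ h2
  · intro k
    rw [← hφ, ← Polynomial.coeff_map]
    have h2 : (Polynomial.C (c₁ * c₂) * P - M * M').map φ = 0 := by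
      rw [Polynomial.map_sub, Polynomial.map_mul, Polynomial.map_mul, hM2, hM'2, Polynomial.map_C,
        ← hP', hN', map_mul, Polynomial.C_mul]
      ring
    rw [h2, Polynomial.coeff_zero]

/-- the resultant vanishes at a common zero -/
theorem res_eval {d : ℕ} {Q : Polynomial (MvPolynomial (Fin d) ℤ)}
    {P : Polynomial (MvPolynomial (Option (Fin d)) ℤ)} (hP : P.natDegree ≠ 0)
    {s : Option (Fin d) → ℤ} {z : ℤ} (hQz : (Q.map (eval (fun b => s (some b)))).eval z = 0)
    (hPz : (P.map (eval s)).eval z = 0) :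
    eval s (Polynomial.resultant (Q.map (rename some).toRingHom) P) = 0 := by
  obtain ⟨p, q, -, -, h⟩ := Polynomial.exists_mul_add_mul_eq_C_resultant
    (Q.map (rename some).toRingHom) P le_rfl le_rfl (Or.inr hP)
  have h2 := congrArg (fun f => (f.map (eval s)).eval z) h
  simp only [Polynomial.map_add, Polynomial.map_mul, Polynomial.eval_add, Polynomial.eval_mul,
    Polynomial.map_C, Polynomial.eval_C] at h2
  rw [← h2]
  have h3 : ((Q.map (rename some).toRingHom).map (eval s)).eval z = 0 := by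
    rw [Polynomial.map_map]
    have h4 : (eval s).comp ((rename some : MvPolynomial (Fin d) ℤ →ₐ[ℤ] _).toRingHom) =
        eval (fun b => s (some b)) := by
      apply RingHom.ext
      intro x
      show eval s (rename some x) = _
      rw [eval_rename]
      rfl
    rw [h4]
    exact hQz
  rw [h3, hPz]
  ring

/-- the values of the derivative -/
theorem der_bd {d : ℕ} {P : Polynomial (MvPolynomial (Option (Fin d)) ℤ)} {w B : ℕ}
    (hPd : P.natDegree ≤ w) {s : Option (Fin d) → ℤ} {z : ℤ}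
    (hc : ∀ k, |eval s (P.coeff k)| ≤ 2 ^ B) (hz : |z| ≤ 2 ^ w) :
    |(P.derivative.map (eval s)).eval z| ≤ 2 ^ ((w + 1) + (B + (w + 1) + w * w)) := by
  have hd : (P.derivative.map (eval s)).natDegree < w + 1 := by
    have h1 : (P.derivative.map (eval s)).natDegree ≤ P.derivative.natDegree :=
      Polynomial.natDegree_map_le
    have h2 := Polynomial.natDegree_derivative_le P
    omega
  rw [Polynomial.eval_eq_sum_range' hd]
  refine (Finset.abs_sum_le_sum_abs _ _).trans ?_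
  have hterm : ∀ i ∈ Finset.range (w + 1),
      |(P.derivative.map (eval s)).coeff i * z ^ i| ≤ 2 ^ (B + (w + 1) + w * w) := by
    intro i hi
    rw [Finset.mem_range] at hi
    rw [Polynomial.coeff_map, Polynomial.coeff_derivative, map_mul, abs_mul, abs_mul, abs_pow]
    have e1 : |eval s ((i : MvPolynomial (Option (Fin d)) ℤ) + 1)| ≤ 2 ^ (w + 1) := by
      rw [map_add, map_natCast, map_one]
      have h1 : |((i : ℕ) : ℤ) + 1| = (i : ℤ) + 1 := abs_of_nonneg (by positivity)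
      rw [h1]
      have h2 : w + 1 ≤ 2 ^ (w + 1) := Nat.lt_two_pow_self.le
      have h3 : i + 1 ≤ 2 ^ (w + 1) := by omega
      exact_mod_cast h3
    have e2 : |z| ^ i ≤ 2 ^ (w * w) := by
      calc |z| ^ i ≤ (2 ^ w) ^ i := pow_le_pow_left₀ (abs_nonneg _) hz _
        _ ≤ (2 ^ w) ^ w := pow_le_pow_right₀ (one_le_pow₀ (by norm_num)) (by omega)
        _ = 2 ^ (w * w) := by rw [← pow_mul]
    rw [pow_add, pow_add]
    exact mul_le_mul (mul_le_mul (hc _) e1 (abs_nonneg _) (by positivity)) e2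
      (pow_nonneg (abs_nonneg _) _) (by positivity)
  refine (Finset.sum_le_card_nsmul _ _ _ hterm).trans ?_
  rw [Finset.card_range, nsmul_eq_mul, pow_add 2 (w + 1)]
  refine mul_le_mul_of_nonneg_right ?_ (by positivity)
  have h5 : w + 1 ≤ 2 ^ (w + 1) := Nat.lt_two_pow_self.le
  exact_mod_cast h5

/-! ### The theorem -/

theorem relP (h1 : S_detP) (h2 : S_starL) (h3 : S_irr) (h4 : S_van) : S_relP := by
  intro Y N Om hY hbig hb G P w z hwf hP hz hsepP
  classical
  -- the large set where the derivatives are nonzero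
  obtain ⟨Z₀, hZ₀⟩ : ∃ Z : ℕ → Finset (Fin N → ℤ), ∀ ν t, t ∈ Z ν ↔ t ∈ Om ν ∧
      eval (G.sp ν t) (pderiv none (G.h ν)) ≠ 0 ∧
      ((P ν).derivative.map (eval (G.sp ν t))).eval (z ν t) ≠ 0 :=
    ⟨fun ν => (Om ν).filter fun t => eval (G.sp ν t) (pderiv none (G.h ν)) ≠ 0 ∧
      ((P ν).derivative.map (eval (G.sp ν t))).eval (z ν t) ≠ 0, fun ν t => Finset.mem_filter⟩
  have hZ₀big : Big Y Z₀ := by
    rcases hbig.or hY (B := Z₀) (C := fun ν => ((Om ν).filter fun t =>
        eval (G.sp ν t) (pderiv none (G.h ν)) = 0) ∪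
        ((Om ν).filter fun t => ((P ν).derivative.map (eval (G.sp ν t))).eval (z ν t) = 0))
      (Filter.Eventually.of_forall fun ν t ht => by
        rw [Finset.mem_union, Finset.mem_union, Finset.mem_filter, Finset.mem_filter, hZ₀]
        tauto) with h | h
    · exact h
    · rcases h.or hY (Filter.Eventually.of_forall fun ν => subset_rfl) with h | h
      · exact absurd h G.sep
      · exact absurd h hsepP
  obtain ⟨Z, hZsub, hZbig, hZgood⟩ := GD.good hY G h4
    (Filter.Eventually.of_forall fun ν t ht => ((hZ₀ ν t).1 ht).1) hZ₀big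
  have hZne := hZbig.nonempty
  -- the degree over the function field
  have hex : ∀ᶠ ν in (Uf : Filter ℕ), ∃ n : ℕ, 1 ≤ n ∧ n ≤ w ν ∧ ¬ InP (G.h ν) ((P ν).coeff n) ∧
      ∀ k, n < k → InP (G.h ν) ((P ν).coeff k) := by
    filter_upwards [hZne, hZsub, hZgood, hP] with ν a1 a2 a3 a4
    obtain ⟨t, ht⟩ := a1
    have ht0 := (hZ₀ ν t).1 (a2 ht)
    obtain ⟨k₁, hk1, hk2⟩ : ∃ k, 1 ≤ k ∧ ¬ InP (G.h ν) ((P ν).coeff k) := by
      by_contra hcon
      push Not at hcon
      apply ht0.2.2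
      have h5 : (P ν).derivative.map (eval (G.sp ν t)) = 0 := by
        ext i
        rw [Polynomial.coeff_map, Polynomial.coeff_derivative, map_mul,
          (a3 t ht).2 _ (hcon (i + 1) (by omega)), zero_mul, Polynomial.coeff_zero]
      rw [h5, Polynomial.eval_zero]
    have hbdd : ∀ k, ¬ InP (G.h ν) ((P ν).coeff k) → k ≤ w ν := by
      intro k hk
      by_contra hcon
      apply hk
      rw [Polynomial.coeff_eq_zero_of_natDegree_lt (by omega)]
      exact InP_zero _
    have hfin : ∃ k, k ≤ w ν ∧ ¬ InP (G.h ν) ((P ν).coeff k) := ⟨k₁, hbdd _ hk2, hk2⟩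
    refine ⟨Nat.findGreatest (fun k => ¬ InP (G.h ν) ((P ν).coeff k)) (w ν), ?_,
      Nat.findGreatest_le _, ?_, ?_⟩
    · exact hk1.trans (Nat.le_findGreatest (hbdd _ hk2) hk2)
    · exact Nat.findGreatest_spec (P := fun k => ¬ InP (G.h ν) ((P ν).coeff k)) (hbdd _ hk2) hk2
    · intro k hk
      by_contra hcon
      have h5 := Nat.le_findGreatest (P := fun k => ¬ InP (G.h ν) ((P ν).coeff k))
        (hbdd _ hcon) hcon
      omega
  obtain ⟨n, hn⟩ := hex.choice
  obtain ⟨m, hm⟩ := hZbig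
  obtain ⟨k, hk⟩ : ∃ k, k = 4 * (2 * G.d + 7) * m + 1 := ⟨_, rfl⟩
  have hk1 : 1 ≤ k := by omega
  obtain ⟨I, D, X₀, hI, hdet⟩ := h1 G.d k
  obtain ⟨xx, hX⟩ := rootX Y k hk1
  have hX1 : ∀ ν, Y ν + 2 ≤ xx ν ^ k := fun ν => (hX ν).2.1
  -- the values
  obtain ⟨C, hC⟩ := Pool.Agent.N741.HB.GD.sp_bd hb G
  obtain ⟨uh, huh, huh'⟩ := Mild.eval_bd hY (PB.mild hY (PB.pderiv none G.hPB)) hC
  obtain ⟨B, hB⟩ : ∃ B : ℕ → ℕ, ∀ ν, B ν = w ν + (C * (Nat.log 2 (Y ν + 2) + 1)) * w ν :=
    ⟨_, fun _ => rfl⟩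
  have hBf : Few Y B := by
    have e1 : Few Y (fun ν => w ν + (C * (Nat.log 2 (Y ν + 2) + 1)) * w ν) :=
      hwf.add hY ((Few.mul_const hY (few_log hY) C).mul hwf)
    exact e1.mono (Filter.Eventually.of_forall fun ν => (hB ν).le)
  have hBv : ∀ᶠ ν in (Uf : Filter ℕ), ∀ t ∈ Om ν, ∀ i,
      |eval (G.sp ν t) ((P ν).coeff i)| ≤ 2 ^ B ν := by
    filter_upwards [hP, hC] with ν a1 a2 t ht i
    have a3 := a1.2 i
    refine (Pool.Agent.N741.HB.eval_le (b := 2 ^ (C * (Nat.log 2 (Y ν + 2) + 1))) (one_le_pow₀ (by norm_num))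
      fun o => (a2 t ht o).trans (pow_le_two_pow _ _)).trans ?_
    rw [hB, pow_add]
    refine mul_le_mul a3.2 ?_ (by positivity) (by positivity)
    rw [pow_mul (2 : ℤ) (C * (Nat.log 2 (Y ν + 2) + 1))]
    exact pow_le_pow_right₀ (one_le_pow₀ (by norm_num)) a3.1
  have hWf : Few Y (fun ν => w ν + 1) := hwf.add hY (Few.const hY 1)
  have hsize1 : ∀ᶠ ν in (Uf : Filter ℕ), I * (I * (w ν + 1)) ^ G.d < xx ν :=
    few_lt_X hX1 ((Few.const hY I).mul (((Few.const hY I).mul hWf).pow G.d))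
  have hsize2 : ∀ᶠ ν in (Uf : Filter ℕ),
      uh ν + ((w ν + 1) + (B ν + (w ν + 1) + w ν * w ν)) < xx ν :=
    few_lt_X hX1 (huh.add hY (hWf.add hY ((hBf.add hY hWf).add hY (hwf.mul hwf))))
  -- the relation
  have key : ∀ᶠ ν in (Uf : Filter ℕ), ∃ TP : Finset (Fin N → ℤ) ×
      Polynomial (MvPolynomial (Fin G.d) ℤ), TP.1 ⊆ Z ν ∧
      (Z ν).card ≤ xx ν ^ (2 * G.d + 7) * TP.1.card ∧ TP.2 ≠ 0 ∧ TP.2.natDegree ≤ I ∧
      (∀ i, (TP.2.coeff i).totalDegree ≤ G.d * (I * (w ν + 1)) ∧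
        nm (TP.2.coeff i) ≤ (I * (w ν + 1)) ^ G.d * xx ν ^ (D * (w ν + 1))) ∧
      ∀ t ∈ TP.1, (TP.2.map (eval (fun b => G.sp ν t (some b)))).eval (z ν t) = 0 := by
    filter_upwards [X_large hY hX1 X₀, X_large hY hX1 2, hsize1, hsize2, hz, hb, hBv, huh',
      G.ev_h, hZsub, hP] with ν g1 g2 g3 g4 g5 g6 g7 g8 g9 g10 g11
    obtain ⟨T', a1, a2, c, a3, a4, a5⟩ := hdet (xx ν) (Y ν + 2) (w ν + 1) g1 (by omega)
      (hX1 ν) (by omega) g3.le (G.h ν) (P ν) (Fin N → ℤ) (Z ν) (G.sp ν) (z ν) (by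
        intro t ht
        obtain ⟨ht1, ht2, ht3⟩ := (hZ₀ ν t).1 (g10 ht)
        obtain ⟨z2, z3⟩ := g5 t ht1
        refine ⟨g9 t ht1, z3, ?_, ?_, ?_, ?_⟩
        · intro b
          show |t (G.ι b)| ≤ _
          have := (g6 t ht1 (G.ι b)).2
          push_cast
          linarith
        · calc |z ν t| ≤ 2 ^ w ν := z2
            _ ≤ (xx ν : ℤ) ^ w ν := pow_le_pow_left₀ (by norm_num) (by exact_mod_cast g2) _
            _ ≤ (xx ν : ℤ) ^ (w ν + 1) :=
                pow_le_pow_right₀ (by exact_mod_cast (hX ν).1) (by omega)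
        · exact mul_ne_zero ht2 ht3
        · rw [abs_mul]
          have b1 := g8 t ht1
          have b2 := der_bd g11.1 (fun i => g7 t ht1 i) z2
          calc |eval (G.sp ν t) (pderiv none (G.h ν))| *
                |((P ν).derivative.map (eval (G.sp ν t))).eval (z ν t)|
              ≤ 2 ^ uh ν * 2 ^ ((w ν + 1) + (B ν + (w ν + 1) + w ν * w ν)) :=
                mul_le_mul b1 b2 (abs_nonneg _) (by positivity)
            _ = 2 ^ (uh ν + ((w ν + 1) + (B ν + (w ν + 1) + w ν * w ν))) := by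
                rw [pow_add 2 (uh ν)]
            _ < 2 ^ xx ν := pow_lt_pow_right₀ (by norm_num) g4)
    refine ⟨(T', PP c), a1, a2, PP_ne a3, PP_deg c, ?_, ?_⟩
    · intro i
      show ((PP c).coeff i).totalDegree ≤ _ ∧ nm ((PP c).coeff i) ≤ _
      rw [PP_coeff]
      split_ifs with hi
      · refine ⟨td_cf c _, nm_cf (B := xx ν ^ (D * (w ν + 1))) ?_ _⟩
        intro e l
        push_cast
        exact a4 e l
      · simp [nm_zero]
    · intro t ht
      show ((PP c).map _).eval _ = 0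
      rw [PP_eval]
      exact a5 t ht
  obtain ⟨TP, hTP⟩ := key.choice
  -- the large subset
  have hT'big : Big Y (fun ν => (TP ν).1) := by
    refine Big.frac hY (A := Z) (X := xx) (m := m) (e := 2 * G.d + 7) (k := k) (by omega) hm ?_ ?_
    · filter_upwards [hTP] with ν hν
      exact hν.2.1
    · exact Filter.Eventually.of_forall fun ν => ⟨(hX ν).1, (hX ν).2.2⟩
  -- the sizes of the coefficients
  obtain ⟨v, hv⟩ : ∃ v : ℕ → ℕ, ∀ ν, v ν = (G.d * (I * (w ν + 1)) +
      (k + lg Y ν) * (D * (w ν + 1))) + w ν := ⟨_, fun _ => rfl⟩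
  have hvf : Few Y v := by
    have e1 : Few Y (fun ν => (G.d * (I * (w ν + 1)) +
      (k + lg Y ν) * (D * (w ν + 1))) + w ν) :=
      (((Few.const hY G.d).mul ((Few.const hY I).mul hWf)).add hY
        (((Few.const hY k).add hY (few_lg hY)).mul ((Few.const hY D).mul hWf))).add hY hwf
    exact e1.mono (Filter.Eventually.of_forall fun ν => (hv ν).le)
  have hL1nm : ∀ (q : MvPolynomial (Fin G.d) ℤ), L1 q ≤ nm q := by
    intro q
    unfold L1 nm
    push_cast
    exact Finset.sum_le_sum fun m _ => by rw [Int.abs_eq_natAbs]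
  have hQsz : ∀ᶠ ν in (Uf : Filter ℕ), ∀ i,
      Sz (v ν) (((TP ν).2.map (rename some).toRingHom).coeff i) := by
    filter_upwards [hTP] with ν a1 i
    obtain ⟨b1, b2⟩ := a1.2.2.2.2.1 i
    rw [Polynomial.coeff_map]
    have hxx : xx ν ≤ 2 ^ (k + lg Y ν) := by
      calc xx ν ≤ xx ν ^ k := Nat.le_self_pow (by omega) _
        _ ≤ 2 ^ k * (Y ν + 2) := (hX ν).2.2
        _ ≤ 2 ^ k * 2 ^ lg Y ν := Nat.mul_le_mul_left _ (y_le_nat Y ν)
        _ = 2 ^ (k + lg Y ν) := by rw [pow_add]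
    have b3 : (I * (w ν + 1)) ^ G.d * xx ν ^ (D * (w ν + 1)) ≤ 2 ^ v ν := by
      calc (I * (w ν + 1)) ^ G.d * xx ν ^ (D * (w ν + 1)) ≤
            (2 ^ (I * (w ν + 1))) ^ G.d * (2 ^ (k + lg Y ν)) ^ (D * (w ν + 1)) :=
            Nat.mul_le_mul (Nat.pow_le_pow_left Nat.lt_two_pow_self.le _)
              (Nat.pow_le_pow_left hxx _)
        _ = 2 ^ (G.d * (I * (w ν + 1)) + (k + lg Y ν) * (D * (w ν + 1))) := by
            rw [← pow_mul, ← pow_mul, ← pow_add]
            congr 1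
            ring
        _ ≤ 2 ^ v ν := Nat.pow_le_pow_right (by norm_num) (by rw [hv]; omega)
    have b4 : Sz (v ν) ((TP ν).2.coeff i) := by
      refine ⟨b1.trans (by rw [hv]; omega), (hL1nm _).trans ?_⟩
      exact_mod_cast b2.trans b3
    exact b4.rename some
  have hPsz : ∀ᶠ ν in (Uf : Filter ℕ), ∀ i, Sz (v ν) ((tr (n ν) (P ν)).coeff i) := by
    filter_upwards [hP] with ν a1 i
    rw [tr_coeff]
    split_ifs
    · exact (a1.2 i).mono (by rw [hv]; omega)
    · exact Sz.zero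
  have hnf : Few Y n := hwf.mono (hn.mono fun ν a => a.2.1)
  have hQdf : Few Y (fun ν => ((TP ν).2.map (rename
      (some : Fin G.d → Option (Fin G.d))).toRingHom).natDegree) :=
    (Few.const hY I).mono (hTP.mono fun ν a => Polynomial.natDegree_map_le.trans a.2.2.2.1)
  have hPdf : Few Y (fun ν => (tr (n ν) (P ν)).natDegree) :=
    hnf.mono (Filter.Eventually.of_forall fun ν => tr_deg_le _ _)
  have hresmild := Mild.resultant hY hvf hQdf hPdf hQsz hPsz
  have htrne : ∀ᶠ ν in (Uf : Filter ℕ), (tr (n ν) (P ν)).natDegree ≠ 0 := by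
    filter_upwards [hn] with ν a
    have h5 : (tr (n ν) (P ν)).coeff (n ν) ≠ 0 := by
      rw [tr_coeff, if_pos le_rfl]
      intro h0
      apply a.2.2.1
      rw [h0]
      exact InP_zero _
    have := Polynomial.le_natDegree_of_ne_zero h5
    omega
  have hresbig : Big Y (fun ν => (Om ν).filter fun t => eval (G.sp ν t)
      (Polynomial.resultant ((TP ν).2.map (rename some).toRingHom) (tr (n ν) (P ν))) = 0) := by
    refine hT'big.mono ?_
    filter_upwards [hTP, hz, hZsub, hZgood, hn, htrne] with ν a1 a4 a5 a6 a7 a8 t ht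
    have htZ := a1.1 ht
    have ht1 := ((hZ₀ ν t).1 (a5 htZ)).1
    rw [Finset.mem_filter]
    refine ⟨ht1, res_eval a8 (a1.2.2.2.2.2 t ht) ?_⟩
    have h5 : (tr (n ν) (P ν)).map (eval (G.sp ν t)) = (P ν).map (eval (G.sp ν t)) := by
      ext i
      rw [Polynomial.coeff_map, Polynomial.coeff_map, tr_coeff]
      split_ifs with hi
      · rfl
      · rw [map_zero, (a6 t htZ).2 _ (a7.2.2.2 i (by omega))]
    rw [h5]
    exact (a4 t ht1).2
  have hresInP := h2 Y N Om hY hbig hb G _ hresmild hresbig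
  refine ⟨I, ?_⟩
  filter_upwards [hresInP, h3 Y N Om hY hbig hb G, hTP, hn] with ν b1 b2 b3 b4
  obtain ⟨M, M', c, c1, c2, c3, c4, c5⟩ := algP b2 (TP ν).2 (P ν) (n ν) b3.2.2.1 b4.2.2.1
    b4.2.2.2 b1
  exact ⟨M, M', c, c1, c2.trans b3.2.2.2.1, c3, c4, c5⟩

end

end Pool.Agent.N26.HB
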